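import Pool.Agent.H73.GWQ.Stmts
import Pool.Agent.H55.GWP.WSA

/-! Row `PVQ` of the board `gwq` of helper73 (MP_213ba5_lc). -/

set_option autoImplicit false

open Classical

namespace GWQ

section code

variable {ι G V : Type*} [Fintype ι] [Group G] (C : QCode ι G V)

theorem pvq_zip {α β : Type*} : ∀ (l m : List (α × β)), l.map Prod.fst = m.map Prod.fst →
    l.map Prod.snd = m.map Prod.snd → l = m
  | [], [], _, _ => rfl
  | [], b :: m, h, _ => by simp at h
  | a :: l, [], h, _ => by simp at h
  | a :: l, b :: m, h, h' => by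
    rw [List.map_cons, List.map_cons, List.cons.injEq] at h h'
    rw [pvq_zip l m h.2 h'.2, Prod.ext h.1 h'.1]

theorem pvq_gen {S : Type*} [Fintype S] (n : ℕ) (Q : List S → Prop) (F : List S → ℝ) (c : ℝ)
    (h : ∀ l, Q l → F l ≤ c) :
    GWP.wsum n (fun l => if Q l then F l else 0) ≤
      c * (({l : List S | l.length = n ∧ Q l}.ncard : ℕ) : ℝ) := by
  rw [GWP.wsum_ncard, ← GWP.wsum_mul]
  apply GWP.wsum_le
  intro l _
  by_cases h1 : Q l
  · rw [if_pos h1, if_pos h1, mul_one]
    exact h l h1
  · rw [if_neg h1, if_neg h1, mul_zero]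

theorem pvq_card (h4 : INQStmt C) (w : ℕ → G) (n : ℕ) (D : List (List ι) × List ι) :
    (({l : List ι | l.length = n ∧ GWT.mask (St C w l) = D}.ncard : ℕ) : ℝ) ≤
      ((C.M : ℝ) ^ 2) ^ D.1.length := by
  have h1 : {l : List ι | l.length = n ∧ GWT.mask (St C w l) = D}.ncard ≤
      {l : List ι | l.length = D.1.length ∧ True}.ncard := by
    apply Set.ncard_le_ncard_of_injOn (fun l => (St C w l).1.map Prod.fst)
      (ht := GWP.finite_words _ _)
    · intro l hl
      refine ⟨?_, trivial⟩
      rw [List.length_map, ← hl.2]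
      simp [GWT.mask]
    · intro l hl l' hl' h
      have h5 : GWT.mask (St C w l) = GWT.mask (St C w l') := hl.2.trans hl'.2.symm
      have h6 : (St C w l).1.map Prod.snd = (St C w l').1.map Prod.snd := by
        have h := congrArg (fun x : List (List ι) × List ι => x.1) h5
        exact h
      have h7 : (St C w l).2 = (St C w l').2 := by
        have h := congrArg (fun x : List (List ι) × List ι => x.2) h5
        exact h
      have h8 := pvq_zip _ _ h h6
      rw [← (h4 w l).1, ← (h4 w l').1, h8, h7]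
  have h2 := GWP.wsum_ncard (S := ι) D.1.length (fun _ => True)
  simp only [if_true] at h2
  rw [GWP.wsum_const, one_mul, C.card] at h2
  push_cast at h2
  rw [← h2]
  exact_mod_cast h1

theorem PVQ (h1 : GWT.FIBStmt ι (List (List ι) × List ι)) (h2 : SMQStmt C) (h3 : GLQStmt C)
    (h4 : INQStmt C) : PVQStmt C := by
  intro w n
  have hM : (8 : ℝ) ≤ C.M := by exact_mod_cast C.M_big
  have hM0 : (0 : ℝ) < C.M := by linarith
  refine h1 (fun l => GWT.mask (St C w l)) n _ (fun D => (C.M : ℝ) ^ D.1.length) _
    (by positivity) ?_ (h2 w n)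
  intro D _
  have hpt : ∀ l : List ι, GWT.mask (St C w l) = D →
      (1 / (C.M : ℝ)) ^ (C.nm (W C w l)) ≤ (1 / (C.M : ℝ)) ^ D.1.length := by
    intro l hl
    obtain ⟨h5, h6⟩ := h4 w l
    apply pow_le_pow_of_le_one (by positivity) (by rw [div_le_one hM0]; linarith)
    have h7 : (St C w l).1.length = D.1.length := by
      rw [← hl]; simp [GWT.mask]
    rcases hS : (St C w l).1 with _ | ⟨f, Q⟩
    · rw [hS] at h7
      rw [← h7]
      exact Nat.zero_le _
    · have h8 := h3 w [] Q f (St C w l).2 (by rw [List.nil_append, ← hS]; exact h6)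
      obtain ⟨-, -, h9, h10⟩ := h8
      rw [List.nil_append, ← hS, h5] at h10
      rw [hS, List.length_cons] at h7
      rw [List.length_nil] at h10
      have h11 := C.big
      have h12 := C.K_pos
      omega
  refine le_trans (pvq_gen n (fun l : List ι => GWT.mask (St C w l) = D) _ _ hpt) ?_
  have h13 := pvq_card C h4 w n D
  calc (1 / (C.M : ℝ)) ^ D.1.length *
        (({l : List ι | l.length = n ∧ GWT.mask (St C w l) = D}.ncard : ℕ) : ℝ)
      ≤ (1 / (C.M : ℝ)) ^ D.1.length * ((C.M : ℝ) ^ 2) ^ D.1.length :=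
        mul_le_mul_of_nonneg_left h13 (by positivity)
    _ = (C.M : ℝ) ^ D.1.length := by
        rw [← mul_pow]
        congr 1
        field_simp

end code

end GWQ
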